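import Pool.Agent.N520.RO.Stm

/-!
Project RO, part ZAS: contraction of commutators in a discrete block triangular group.
-/

set_option autoImplicit false

open Set Filter Topology

namespace Pool.Agent.N316.RO.Zas

open Pool.Agent.N520.RO

section
variable {V : Type} [NormedAddCommGroup V] [NormedSpace ℝ V] {m : ℕ} {π : Fin m → V →L[ℝ] V}

/-- the diagonal one-parameter group -/
noncomputable def D (π : Fin m → V →L[ℝ] V) (T : ℝ) : V →L[ℝ] V :=
  ∑ i : Fin m, Real.exp ((i : ℕ) * T) • π i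

theorem D_mul (hπ : Sys m π) (S T : ℝ) : D π S * D π T = D π (S + T) := by
  unfold D
  rw [Finset.sum_mul_sum]
  refine Finset.sum_congr rfl fun i _ => ?_
  rw [Finset.sum_eq_single i]
  · rw [smul_mul_smul_comm, hπ.orth, if_pos rfl, ← Real.exp_add, mul_add]
  · intro j _ hj
    rw [smul_mul_smul_comm, hπ.orth, if_neg (Ne.symm hj), smul_zero]
  · intro h
    exact absurd (Finset.mem_univ i) h

theorem D_zero (hπ : Sys m π) : D π 0 = 1 := by
  unfold D
  rw [← hπ.sum]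
  refine Finset.sum_congr rfl fun i _ => ?_
  rw [mul_zero, Real.exp_zero, one_smul]

theorem D_neg (hπ : Sys m π) (T : ℝ) : D π T * D π (-T) = 1 := by
  rw [D_mul hπ, add_neg_cancel, D_zero hπ]

theorem D_neg' (hπ : Sys m π) (T : ℝ) : D π (-T) * D π T = 1 := by
  rw [D_mul hπ, neg_add_cancel, D_zero hπ]

theorem expand (M : V →L[ℝ] V) (T : ℝ) : D π T * M * D π (-T) =
    ∑ i : Fin m, ∑ j : Fin m, Real.exp ((((i : ℕ) : ℝ) - ((j : ℕ) : ℝ)) * T) •
      (π i * M * π j) := by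
  unfold D
  rw [Finset.sum_mul, Finset.sum_mul_sum]
  refine Finset.sum_congr rfl fun i _ => Finset.sum_congr rfl fun j _ => ?_
  rw [smul_mul_assoc, smul_mul_smul_comm, ← Real.exp_add]
  congr 2
  ring

theorem conv {M : V →L[ℝ] V} (hM : ∀ i j : Fin m, j < i → π i * M * π j = 0) :
    Tendsto (fun T : ℝ => D π T * M * D π (-T)) atTop (𝓝 (∑ i, π i * M * π i)) := by
  have h1 : (∑ i, π i * M * π i) = ∑ i : Fin m, ∑ j : Fin m,
      (if i = j then π i * M * π j else 0) := by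
    refine Finset.sum_congr rfl fun i _ => ?_
    rw [Finset.sum_ite_eq, if_pos (Finset.mem_univ i)]
  rw [h1]
  simp only [expand]
  refine tendsto_finsetSum _ fun i _ => tendsto_finsetSum _ fun j _ => ?_
  rcases lt_trichotomy i j with h | h | h
  · rw [if_neg h.ne]
    have h2 : Tendsto (fun T : ℝ => Real.exp ((((i : ℕ) : ℝ) - ((j : ℕ) : ℝ)) * T)) atTop
        (𝓝 0) := by
      apply Real.tendsto_exp_atBot.comp
      apply Tendsto.const_mul_atTop_of_neg _ tendsto_id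
      have h3 : ((i : ℕ) : ℝ) < ((j : ℕ) : ℝ) := by exact_mod_cast h
      linarith
    have h3 := h2.smul_const (π i * M * π j)
    rwa [zero_smul] at h3
  · subst h
    rw [if_pos rfl]
    simp only [sub_self, zero_mul, Real.exp_zero, one_smul]
    exact tendsto_const_nhds
  · rw [if_neg h.ne', hM i j h]
    simp only [smul_zero]
    exact tendsto_const_nhds

end

theorem t_zas : S_ZAS := by
  intro V _ _ _ Λ _ θ hdisc m π hπ hup F hF hgr
  have h1 : ∀ᶠ T : ℝ in atTop, ∀ f ∈ F, dist (D π T * (θ f : V →L[ℝ] V) * D π (-T))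
      (∑ i, π i * (θ f : V →L[ℝ] V) * π i) < 1 / 16 := by
    rw [Filter.eventually_all_finite hF]
    intro f _
    exact (Metric.tendsto_nhds.1 (conv fun i j hij => hup f i j hij)) (1 / 16) (by norm_num)
  obtain ⟨T, hT⟩ := h1.exists
  obtain ⟨y, hy⟩ : ∃ y : Λ → V →L[ℝ] V, ∀ l, y l = D π T * (θ l : V →L[ℝ] V) * D π (-T) :=
    ⟨_, fun l => rfl⟩
  have hymul : ∀ a b, y (a * b) = y a * y b := by
    intro a b
    have e1 : D π (-T) * D π T = 1 := D_neg' hπ T
    rw [hy, hy, hy, map_mul, Units.val_mul]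
    calc D π T * ((θ a : V →L[ℝ] V) * (θ b : V →L[ℝ] V)) * D π (-T) =
        D π T * (θ a : V →L[ℝ] V) * 1 * (θ b : V →L[ℝ] V) * D π (-T) := by
          simp only [mul_one, mul_assoc]
      _ = _ := by
          rw [← e1]
          simp only [mul_assoc]
  have hyone : y 1 = 1 := by
    rw [hy, map_one, Units.val_one, mul_one, D_neg hπ]
  have hn1 : ‖(1 : V →L[ℝ] V)‖ ≤ 1 := ContinuousLinearMap.norm_id_le
  have hyF : ∀ f ∈ F, ‖y f - 1‖ ≤ 1 / 8 := by
    intro f hf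
    have e1 := hT f hf
    rw [dist_eq_norm, ← hy] at e1
    have e2 := hgr f hf
    have e3 : y f - 1 = (y f - ∑ i, π i * (θ f : V →L[ℝ] V) * π i) +
        (∑ i, π i * (θ f : V →L[ℝ] V) * π i - 1) := by abel
    rw [e3]
    refine (norm_add_le _ _).trans ?_
    linarith
  have hinv : ∀ x, ‖y x - 1‖ ≤ 1 / 8 → ‖y x⁻¹‖ ≤ 8 / 7 := by
    intro x hx
    have e1 : y x⁻¹ = 1 - y x⁻¹ * (y x - 1) := by
      rw [mul_sub, mul_one, ← hymul, inv_mul_cancel, hyone]
      abel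
    have e2 : ‖y x⁻¹‖ ≤ 1 + ‖y x⁻¹‖ * (1 / 8) := by
      calc ‖y x⁻¹‖ = ‖1 - y x⁻¹ * (y x - 1)‖ := by rw [← e1]
        _ ≤ ‖(1 : V →L[ℝ] V)‖ + ‖y x⁻¹ * (y x - 1)‖ := norm_sub_le _ _
        _ ≤ 1 + ‖y x⁻¹‖ * ‖y x - 1‖ := add_le_add hn1 (norm_mul_le _ _)
        _ ≤ 1 + ‖y x⁻¹‖ * (1 / 8) := by gcongr
    linarith
  have hind : ∀ k, ∀ x ∈ Cm F k, ‖y x - 1‖ ≤ 1 / 8 * (1 / 2) ^ k := by
    intro k
    induction k with
    | zero =>
      intro x hx
      rw [pow_zero, mul_one]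
      exact hyF x hx
    | succ k ih =>
      rintro z ⟨x, hx, f, hf, rfl⟩
      have e0 : ‖y x - 1‖ ≤ 1 / 8 * (1 / 2) ^ k := ih x hx
      have e1 : ‖y x - 1‖ ≤ 1 / 8 := by
        refine e0.trans ?_
        have : (1 / 2 : ℝ) ^ k ≤ 1 := pow_le_one₀ (by norm_num) (by norm_num)
        linarith
      have e2 : ‖y f - 1‖ ≤ 1 / 8 := hyF f hf
      have e3 := hinv x e1
      have e4 := hinv f e2
      have e5 : y (x * f * x⁻¹ * f⁻¹) - 1 =
          ((y x - 1) * (y f - 1) - (y f - 1) * (y x - 1)) * y x⁻¹ * y f⁻¹ := by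
        have a1 : (y x - 1) * (y f - 1) - (y f - 1) * (y x - 1) = y x * y f - y f * y x := by
          noncomm_ring
        have a2 : y f * y x * y x⁻¹ * y f⁻¹ = 1 := by
          rw [← hymul, ← hymul, ← hymul, mul_inv_cancel_right, mul_inv_cancel, hyone]
        rw [a1, sub_mul, sub_mul, a2, hymul, hymul, hymul]
      rw [e5]
      have e6 : ‖(y x - 1) * (y f - 1) - (y f - 1) * (y x - 1)‖ ≤
          2 * ‖y x - 1‖ * (1 / 8) := by
        calc ‖(y x - 1) * (y f - 1) - (y f - 1) * (y x - 1)‖ ≤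
            ‖(y x - 1) * (y f - 1)‖ + ‖(y f - 1) * (y x - 1)‖ := norm_sub_le _ _
          _ ≤ ‖y x - 1‖ * ‖y f - 1‖ + ‖y f - 1‖ * ‖y x - 1‖ :=
              add_le_add (norm_mul_le _ _) (norm_mul_le _ _)
          _ ≤ ‖y x - 1‖ * (1 / 8) + (1 / 8) * ‖y x - 1‖ := by gcongr
          _ = _ := by ring
      calc ‖((y x - 1) * (y f - 1) - (y f - 1) * (y x - 1)) * y x⁻¹ * y f⁻¹‖ ≤
          ‖((y x - 1) * (y f - 1) - (y f - 1) * (y x - 1)) * y x⁻¹‖ * ‖y f⁻¹‖ := norm_mul_le _ _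
        _ ≤ ‖(y x - 1) * (y f - 1) - (y f - 1) * (y x - 1)‖ * ‖y x⁻¹‖ * ‖y f⁻¹‖ := by
            gcongr
            exact norm_mul_le _ _
        _ ≤ (2 * ‖y x - 1‖ * (1 / 8)) * (8 / 7) * (8 / 7) := by gcongr
        _ ≤ ‖y x - 1‖ * (1 / 2) := by
            have := norm_nonneg (y x - 1)
            linarith
        _ ≤ (1 / 8 * (1 / 2) ^ k) * (1 / 2) := by gcongr
        _ = _ := by ring
  refine ⟨?_, ?_⟩
  · obtain ⟨ε, hε, hd⟩ := hdisc
    have e1 : Tendsto (fun k : ℕ => ‖D π (-T)‖ * (1 / 8 * (1 / 2 : ℝ) ^ k) * ‖D π T‖) atTop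
        (𝓝 0) := by
      have e2 := tendsto_pow_atTop_nhds_zero_of_lt_one (r := (1 / 2 : ℝ)) (by norm_num)
        (by norm_num)
      have e3 := ((e2.const_mul (1 / 8)).const_mul ‖D π (-T)‖).mul_const ‖D π T‖
      simpa using e3
    obtain ⟨k, hk⟩ := (e1.eventually (gt_mem_nhds hε)).exists
    refine ⟨k, fun x hx => hd x ?_⟩
    have e4 : (θ x : V →L[ℝ] V) - 1 = D π (-T) * (y x - 1) * D π T := by
      have a1 := D_neg' hπ T
      rw [hy, mul_sub, sub_mul, mul_one, a1]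
      congr 1
      calc (θ x : V →L[ℝ] V) = 1 * (θ x : V →L[ℝ] V) * 1 := by rw [one_mul, mul_one]
        _ = _ := by
            rw [← a1]
            simp only [mul_assoc]
    rw [e4]
    refine lt_of_le_of_lt ?_ hk
    calc ‖D π (-T) * (y x - 1) * D π T‖ ≤ ‖D π (-T) * (y x - 1)‖ * ‖D π T‖ := norm_mul_le _ _
      _ ≤ ‖D π (-T)‖ * ‖y x - 1‖ * ‖D π T‖ := by
          gcongr
          exact norm_mul_le _ _
      _ ≤ _ := by
          gcongr
          exact hind k x hx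
  · intro f hf φ μ hφ heig
    by_contra hc
    rw [not_le] at hc
    obtain ⟨ψ, hψ⟩ : ∃ ψ : V →L[ℝ] ℂ, ∀ v, ψ v = φ (D π (-T) v) :=
      ⟨LinearMap.toContinuousLinearMap (φ ∘ₗ (D π (-T) : V →ₗ[ℝ] V)), fun v => rfl⟩
    have e1 : ∀ v, (μ - 1) * ψ v = ψ ((y f - 1) v) := by
      intro v
      have a1 : D π (-T) (y f v) = (θ f : V →L[ℝ] V) (D π (-T) v) := by
        have a2 : D π (-T) * y f = (θ f : V →L[ℝ] V) * D π (-T) := by
          rw [hy, ← mul_assoc, ← mul_assoc, D_neg' hπ, one_mul]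
        exact congrArg (fun A : V →L[ℝ] V => A v) a2
      rw [sub_apply, one_apply_eq_self, map_sub, hψ, hψ, a1, heig]
      ring
    have e2 : ‖ψ‖ ≤ ‖ψ‖ / (8 * ‖μ - 1‖) := by
      have hpos : 0 < 8 * ‖μ - 1‖ := by linarith
      refine ContinuousLinearMap.opNorm_le_bound _ (by positivity) fun v => ?_
      rw [div_mul_eq_mul_div, le_div_iff₀ hpos]
      have a1 : ‖μ - 1‖ * ‖ψ v‖ ≤ ‖ψ‖ * (1 / 8 * ‖v‖) := by
        rw [← norm_mul, e1]
        calc ‖ψ ((y f - 1) v)‖ ≤ ‖ψ‖ * ‖(y f - 1) v‖ := ψ.le_opNorm _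
          _ ≤ ‖ψ‖ * (‖y f - 1‖ * ‖v‖) := by
              gcongr
              exact (y f - 1).le_opNorm v
          _ ≤ _ := by
              gcongr
              exact hyF f hf
      linarith
    have e3 : 0 < ‖ψ‖ := by
      rw [norm_pos_iff]
      intro h0
      apply hφ
      ext v
      have a1 : ψ (D π T v) = φ v := by
        rw [hψ]
        congr 1
        exact congrArg (fun A : V →L[ℝ] V => A v) (D_neg' hπ T)
      rw [← a1, h0]
      rfl
    have hpos : 0 < 8 * ‖μ - 1‖ := by linarith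
    rw [le_div_iff₀ hpos] at e2
    have e4 : 1 < 8 * ‖μ - 1‖ := by linarith
    have e5 := mul_lt_mul_of_pos_left e4 e3
    linarith

end Pool.Agent.N316.RO.Zas
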